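import Pool.Agent.TH76.LehP.GoldA

set_option autoImplicit false

/-!
# Multipliers `k` with `2 k p + 1` prime: many primes `p` with a full share of multipliers `k ≤ p ^ (1 - δ)`
-/

namespace Pool.Agent.Zk38.Mult

open Finset Pool.Agent.TH76.LehP

/-- the `k ≤ K` with `2 k p + 1` prime -/
def MU (p K : ℕ) : Finset ℕ := (Icc 1 K).filter (fun k => (2 * k * p + 1).Prime)

lemma card_P1_le (t q : ℕ) (hq : q.Prime) (hq2 : q ≠ 2) :
    (P1 t q).card ≤ (MU q ((t - 1) / (2 * q))).card := by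
  have hq0 := hq.pos
  apply Finset.card_le_card_of_injOn (fun p => (p - 1) / (2 * q))
  · intro p hp
    rw [Finset.mem_coe, mem_P1] at hp
    obtain ⟨h1, h2, h3⟩ := hp
    have hp2 := h2.two_le
    have hqo : q % 2 = 1 := hq.eq_two_or_odd.resolve_left hq2
    have hp3 : p ≠ 2 := by
      rintro rfl
      have := Nat.le_of_dvd (by norm_num) h3
      have := hq.two_le
      omega
    have hpo : p % 2 = 1 := h2.eq_two_or_odd.resolve_left hp3
    have hdvd : 2 * q ∣ p - 1 := by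
      apply Nat.Coprime.mul_dvd_of_dvd_of_dvd _ (by omega) h3
      rw [Nat.coprime_comm]
      exact (Nat.coprime_primes hq Nat.prime_two).2 hq2
    have h4 : (p - 1) / (2 * q) * (2 * q) = p - 1 := Nat.div_mul_cancel hdvd
    rw [Finset.mem_coe, MU, mem_filter, mem_Icc]
    simp only []
    refine ⟨⟨?_, Nat.div_le_div_right (by omega)⟩, ?_⟩
    · rw [Nat.one_le_div_iff (by omega)]
      exact Nat.le_of_dvd (by omega) hdvd
    · rw [show 2 * ((p - 1) / (2 * q)) * q + 1 = (p - 1) / (2 * q) * (2 * q) + 1 by ring, h4]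
      rw [show p - 1 + 1 = p by omega]
      exact h2
  · intro p hp p' hp' hpp
    rw [Finset.mem_coe, mem_P1] at hp hp'
    simp only [] at hpp
    have key : ∀ r : ℕ, r ≤ t ∧ r.Prime ∧ q ∣ r - 1 → (r - 1) / (2 * q) * (2 * q) = r - 1 ∧ 2 ≤ r := by
      rintro r ⟨h1, h2, h3⟩
      have hp2 := h2.two_le
      have hqo : q % 2 = 1 := hq.eq_two_or_odd.resolve_left hq2
      have hp3 : r ≠ 2 := by
        rintro rfl
        have := Nat.le_of_dvd (by norm_num) h3
        have := hq.two_le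
        omega
      have hpo : r % 2 = 1 := h2.eq_two_or_odd.resolve_left hp3
      refine ⟨Nat.div_mul_cancel ?_, hp2⟩
      apply Nat.Coprime.mul_dvd_of_dvd_of_dvd _ (by omega) h3
      rw [Nat.coprime_comm]
      exact (Nat.coprime_primes hq Nat.prime_two).2 hq2
    obtain ⟨h1, h1'⟩ := key p hp
    obtain ⟨h2, h2'⟩ := key p' hp'
    rw [hpp] at h1
    omega

/-- `∑ 1 / q` over the primes of `(y, z]`, `√t ≤ y`, `z ≤ t` -/
lemma mertens_up : ∃ C : ℝ, 1 ≤ C ∧ ∀ t y z : ℕ, 3 ≤ t → t ≤ y ^ 2 → z ≤ t →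
    ∑ q ∈ (Ioc y z).filter (fun q => q.Prime), 1 / (q : ℝ) ≤ C := by
  obtain ⟨C1, hC1⟩ := Helper923.HMertens.mertens_log
  have hC10 : 0 ≤ C1 := (abs_nonneg _).trans (hC1 1 le_rfl)
  refine ⟨1 + 4 * C1, by linarith, fun t y z ht hty hzt => ?_⟩
  have ht0 : (3 : ℝ) ≤ t := by exact_mod_cast ht
  have hL : 1 ≤ Real.log t := by
    rw [Real.le_log_iff_exp_le (by linarith)]
    have := Real.exp_one_lt_d9
    linarith
  rcases Nat.lt_or_ge z y with hzy | hyz
  · rw [Finset.Ioc_eq_empty (by omega)]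
    simp only [filter_empty, sum_empty]
    linarith
  have hy0 : 1 ≤ y := by
    rcases Nat.eq_zero_or_pos y with h | h
    · rw [h] at hty; norm_num at hty; omega
    · exact h
  have hy0' : (0 : ℝ) < y := by exact_mod_cast hy0
  have hlogy : Real.log t ≤ 2 * Real.log y := by
    have h1 : (t : ℝ) ≤ (y : ℝ) ^ 2 := by exact_mod_cast hty
    have h2 := Real.log_le_log (by linarith) h1
    rw [Real.log_pow] at h2
    push_cast at h2
    linarith
  have hsplit : ∑ q ∈ (Ioc y z).filter (fun q => q.Prime), Real.log q / (q : ℝ) =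
      ∑ q ∈ (Icc 1 z).filter Nat.Prime, Real.log q / (q : ℝ) -
      ∑ q ∈ (Icc 1 y).filter Nat.Prime, Real.log q / (q : ℝ) := by
    rw [eq_sub_iff_add_eq', ← Finset.sum_union]
    · apply Finset.sum_congr _ (fun _ _ => rfl)
      ext q
      simp only [mem_union, mem_filter, mem_Icc, mem_Ioc]
      constructor
      · rintro (⟨h1, h2⟩ | ⟨h1, h2⟩)
        · exact ⟨by omega, h2⟩
        · exact ⟨by omega, h2⟩
      · rintro ⟨h1, h2⟩
        rcases Nat.lt_or_ge y q with h3 | h3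
        · exact Or.inr ⟨by omega, h2⟩
        · exact Or.inl ⟨by omega, h2⟩
    · rw [Finset.disjoint_left]
      intro q h1 h2
      simp only [mem_filter, mem_Icc, mem_Ioc] at h1 h2
      omega
  have h4 := (abs_le.mp (hC1 z (by omega))).2
  have h5 := (abs_le.mp (hC1 y hy0)).1
  have h6 : Real.log z ≤ Real.log t :=
    Real.log_le_log (by exact_mod_cast (by omega : 0 < z)) (by exact_mod_cast hzt)
  have h7 : ∑ q ∈ (Ioc y z).filter (fun q => q.Prime), 1 / (q : ℝ) ≤
      (2 / Real.log t) * ∑ q ∈ (Ioc y z).filter (fun q => q.Prime), Real.log q / (q : ℝ) := by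
    rw [mul_sum]
    apply sum_le_sum
    intro q hq
    rw [mem_filter, mem_Ioc] at hq
    have hq0 : (0 : ℝ) < q := by exact_mod_cast hq.2.pos
    have h8 : Real.log y ≤ Real.log q := Real.log_le_log hy0' (by exact_mod_cast hq.1.1.le)
    rw [show 2 / Real.log t * (Real.log q / (q : ℝ)) = (2 * Real.log q / Real.log t) * (1 / (q : ℝ)) by
      field_simp]
    apply le_mul_of_one_le_left (by positivity)
    rw [one_le_div (by linarith)]
    linarith
  refine h7.trans ?_
  rw [hsplit, div_mul_eq_mul_div, div_le_iff₀ (by linarith)]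
  nlinarith

/-- many primes `q` with the full share of primes `≡ 1 (mod q)` up to `t`, `t ^ (1/2+κ) < q ≤ t ^ (1-κ)` -/
theorem many : ∃ c κ : ℝ, 0 < c ∧ 0 < κ ∧ κ ≤ 1 / 4 ∧ ∃ T : ℕ, ∀ t : ℕ, T ≤ t →
    c ≤ ∑ q ∈ (Ioc ⌊(t : ℝ) ^ (1 / 2 + κ)⌋₊ ⌊(t : ℝ) ^ (1 - κ)⌋₊).filter (fun q => q.Prime ∧
      c * (t / (q * Real.log t)) ≤ ((P1 t q).card : ℝ)), 1 / (q : ℝ) := by
  classical
  obtain ⟨c0, κ, hc0, hκ, hκ4, T0, h0⟩ := goldA
  obtain ⟨CM, hCM, hM⟩ := mertens_up
  obtain ⟨CB, hCB, hB⟩ := bt_one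
  obtain ⟨T1, hT1⟩ := Filter.eventually_atTop.1 (ev_rpow 2 κ hκ)
  set c : ℝ := min (c0 / (2 * CM)) (c0 * κ / (2 * CB)) with hc
  have hcpos : 0 < c := by rw [hc]; positivity
  refine ⟨c, κ, hcpos, hκ, hκ4, max T0 (max T1 3), fun t ht => ?_⟩
  have ht0 : T0 ≤ t := (le_max_left _ _).trans ht
  have ht1 : T1 ≤ t := ((le_max_left _ _).trans (le_max_right _ _)).trans ht
  have ht3 : 3 ≤ t := ((le_max_right _ _).trans (le_max_right _ _)).trans ht
  have htR : (3 : ℝ) ≤ t := by exact_mod_cast ht3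
  have htpos : (0 : ℝ) < t := by linarith
  have hL : 0 < Real.log t := Real.log_pos (by linarith)
  set y : ℕ := ⌊(t : ℝ) ^ (1 / 2 + κ)⌋₊ with hy
  set z : ℕ := ⌊(t : ℝ) ^ (1 - κ)⌋₊ with hz
  have hyle : (y : ℝ) ≤ (t : ℝ) ^ (1 / 2 + κ) := Nat.floor_le (by positivity)
  have hzle : (z : ℝ) ≤ (t : ℝ) ^ (1 - κ) := Nat.floor_le (by positivity)
  have hzt : z ≤ t := by
    have : (z : ℝ) ≤ t := hzle.trans (by
      calc (t : ℝ) ^ (1 - κ) ≤ (t : ℝ) ^ (1 : ℝ) :=
            Real.rpow_le_rpow_of_exponent_le (by linarith) (by linarith)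
        _ = t := Real.rpow_one _)
    exact_mod_cast this
  have hty : t ≤ y ^ 2 := by
    have h1 : (t : ℝ) ^ (1 / 2 : ℝ) * 2 ≤ (t : ℝ) ^ (1 / 2 + κ) := by
      rw [Real.rpow_add htpos]
      exact mul_le_mul_of_nonneg_left (hT1 t ht1) (by positivity)
    have h2 : (t : ℝ) ^ (1 / 2 + κ) < y + 1 := Nat.lt_floor_add_one _
    have h3 : 1 ≤ (t : ℝ) ^ (1 / 2 : ℝ) := Real.one_le_rpow (by linarith) (by norm_num)
    have h4 : (t : ℝ) ^ (1 / 2 : ℝ) ≤ y := by linarith
    have h5 : (t : ℝ) = ((t : ℝ) ^ (1 / 2 : ℝ)) ^ 2 := by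
      rw [← Real.rpow_natCast, ← Real.rpow_mul htpos.le]
      norm_num
    have h6 : (t : ℝ) ≤ (y : ℝ) ^ 2 := by
      rw [h5]
      exact pow_le_pow_left₀ (by positivity) h4 2
    exact_mod_cast h6
  have hg := h0 t y ht0 hty hyle
  -- split
  set good : ℕ → Prop := fun q => c * (t / (q * Real.log t)) ≤ ((P1 t q).card : ℝ) with hgood
  have hsum : ∑ q ∈ (Ioc y z).filter (fun q => q.Prime), ((P1 t q).card : ℝ) =
      ∑ q ∈ ((Ioc y z).filter (fun q => q.Prime)).filter good, ((P1 t q).card : ℝ) +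
      ∑ q ∈ ((Ioc y z).filter (fun q => q.Prime)).filter (fun q => ¬ good q), ((P1 t q).card : ℝ) :=
    (sum_filter_add_sum_filter_not _ _ _).symm
  have hbad : ∑ q ∈ ((Ioc y z).filter (fun q => q.Prime)).filter (fun q => ¬ good q), ((P1 t q).card : ℝ) ≤
      c0 / 2 * (t / Real.log t) := by
    calc ∑ q ∈ ((Ioc y z).filter (fun q => q.Prime)).filter (fun q => ¬ good q), ((P1 t q).card : ℝ)
        ≤ ∑ q ∈ ((Ioc y z).filter (fun q => q.Prime)).filter (fun q => ¬ good q),
            c * (t / Real.log t) * (1 / (q : ℝ)) := by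
          apply sum_le_sum
          intro q hq
          rw [mem_filter] at hq
          have h1 := hq.2
          simp only [hgood, not_le] at h1
          refine h1.le.trans (le_of_eq ?_)
          have hq0 : (q : ℝ) ≠ 0 := by
            have := (mem_filter.1 hq.1).2.pos
            positivity
          field_simp
      _ ≤ ∑ q ∈ (Ioc y z).filter (fun q => q.Prime), c * (t / Real.log t) * (1 / (q : ℝ)) := by
          apply sum_le_sum_of_subset_of_nonneg (filter_subset _ _)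
          intro q _ _
          positivity
      _ = c * (t / Real.log t) * ∑ q ∈ (Ioc y z).filter (fun q => q.Prime), 1 / (q : ℝ) := by rw [mul_sum]
      _ ≤ c * (t / Real.log t) * CM := mul_le_mul_of_nonneg_left (hM t y z ht3 hty hzt) (by positivity)
      _ ≤ c0 / (2 * CM) * (t / Real.log t) * CM := by
          have : c ≤ c0 / (2 * CM) := min_le_left _ _
          gcongr
      _ = c0 / 2 * (t / Real.log t) := by field_simp
  have hgd : ∑ q ∈ ((Ioc y z).filter (fun q => q.Prime)).filter good, ((P1 t q).card : ℝ) ≤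
      (CB / κ) * (t / Real.log t) * ∑ q ∈ ((Ioc y z).filter (fun q => q.Prime)).filter good, 1 / (q : ℝ) := by
    rw [mul_sum]
    apply sum_le_sum
    intro q hq
    rw [mem_filter, mem_filter, mem_Ioc] at hq
    have h1 : (q : ℝ) ≤ (t : ℝ) ^ (1 - κ) := by
      have : (q : ℝ) ≤ z := by exact_mod_cast hq.1.1.2
      exact this.trans hzle
    have h2 := hB κ hκ (by linarith) t q (by omega) hq.1.2 h1
    refine h2.trans (le_of_eq ?_)
    have hq0 : (q : ℝ) ≠ 0 := by
      have := hq.1.2.pos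
      positivity
    field_simp
  have hfin : c0 / 2 * (t / Real.log t) ≤
      (CB / κ) * (t / Real.log t) * ∑ q ∈ ((Ioc y z).filter (fun q => q.Prime)).filter good, 1 / (q : ℝ) := by
    linarith
  have hpos : 0 < (t : ℝ) / Real.log t := by positivity
  have hfin2 : c0 / 2 ≤ (CB / κ) * ∑ q ∈ ((Ioc y z).filter (fun q => q.Prime)).filter good, 1 / (q : ℝ) := by
    nlinarith
  rw [← filter_filter]
  refine (min_le_right _ _).trans ?_
  rw [div_le_iff₀ (by positivity)]
  rw [div_mul_eq_mul_div, le_div_iff₀ hκ] at hfin2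
  linarith

end Pool.Agent.Zk38.Mult
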