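import Pool.Agent.Zk38.Mult.A
import Pool.Agent.X58.IV.Prm

set_option autoImplicit false

/-!
# Multipliers `k` with `2 k p + 1` prime: narrow progressions in dense sets of multipliers
-/

namespace Pool.Agent.Zk38.Mult

open Finset Pool.Agent.TH76.LehP
open Pool.Agent.Y843.HS (Pr VV Sv)
open Pool.Agent.X58.IV (HasAP Adm VV_zero)

/-- the class `n` modulo `r` with `r ∣ 2 n p + 1` -/
def Zp (p r : ℕ) : Finset ℕ := (range r).filter (fun n => r ∣ 2 * n * p + 1)

lemma Zp_card_le_one {p r : ℕ} (hr : r.Prime) : (Zp p r).card ≤ 1 := by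
  have key : ∀ a b : ℕ, (a < r ∧ r ∣ 2 * a * p + 1) → (b < r ∧ r ∣ 2 * b * p + 1) → a ≤ b → a = b := by
    intro a b ha hb hab
    have h1 : r ∣ 2 * p * (b - a) := by
      have h2 := (Nat.dvd_sub hb.2 ha.2)
      have e : 2 * b * p + 1 - (2 * a * p + 1) = 2 * p * (b - a) := by
        obtain ⟨d, rfl⟩ := Nat.exists_eq_add_of_le hab
        rw [Nat.add_sub_cancel_left]
        have : 2 * (a + d) * p + 1 = (2 * a * p + 1) + 2 * p * d := by ring
        rw [this, Nat.add_sub_cancel_left]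
      rwa [e] at h2
    rcases (Nat.Prime.dvd_mul hr).1 h1 with h2 | h2
    · exfalso
      have h3 : r ∣ 2 * a * p := by
        have : 2 * a * p = 2 * p * a := by ring
        rw [this]
        exact h2.mul_right _
      have h4 := (Nat.dvd_add_right h3).1 ha.2
      exact hr.one_lt.ne' (Nat.dvd_one.1 h4)
    · by_contra hne
      have := Nat.le_of_dvd (by omega) h2
      omega
  rw [Finset.card_le_one]
  intro a ha b hb
  rw [Zp, mem_filter, mem_range] at ha hb
  rcases le_total a b with h | h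
  · exact key a b ha hb h
  · exact (key b a hb ha h).symm

lemma Zp_two (p : ℕ) : Zp p 2 = ∅ := by
  rw [Zp, filter_eq_empty_iff]
  intro n _ h
  rw [mul_assoc] at h
  omega

lemma adm_Zp (p : ℕ) : Adm 1 (Zp p) := by
  intro r hr
  refine ⟨Zp_card_le_one hr, ?_, fun c hc => ?_⟩
  · exact lt_of_le_of_lt (Zp_card_le_one hr) hr.one_lt
  · rw [Zp, mem_filter, mem_range] at hc
    exact hc.1

lemma Zp_nonempty {p r : ℕ} (hp : p.Prime) (hr : r.Prime) (hr2 : r ≠ 2) (hrp : r ≠ p) : (Zp p r).Nonempty := by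
  have hcop : (2 * p).Coprime r := by
    apply Nat.Coprime.mul_left
    · exact (Nat.coprime_primes Nat.prime_two hr).2 hr2.symm
    · exact (Nat.coprime_primes hp hr).2 hrp.symm
  have : NeZero r := ⟨hr.ne_zero⟩
  have : Fact (1 < r) := ⟨hr.one_lt⟩
  set u : ZMod r := -((2 * p : ℕ) : ZMod r)⁻¹ with hu
  refine ⟨u.val, ?_⟩
  rw [Zp, mem_filter, mem_range]
  refine ⟨ZMod.val_lt u, ?_⟩
  rw [← ZMod.natCast_eq_zero_iff]
  have h1 : ((2 * p : ℕ) : ZMod r) * ((2 * p : ℕ) : ZMod r)⁻¹ = 1 := ZMod.coe_mul_inv_eq_one _ hcop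
  have e : ((2 * u.val * p + 1 : ℕ) : ZMod r) = ((2 * p : ℕ) : ZMod r) * u + 1 := by
    push_cast
    rw [ZMod.natCast_zmod_val]
    ring
  rw [e, hu, mul_neg, h1]
  ring

lemma VV_Zp {p K : ℕ} (hp : p.Prime) (hK : K < p) : VV (Zp p) 0 K ≤ 2 * VV (fun _ => ({0} : Finset ℕ)) 0 K := by
  unfold VV
  have h1 : ∏ r ∈ Pr 0 K, (1 - ((Zp p r).card : ℝ) / r) ≤
      ∏ r ∈ Pr 0 K, ((if r = 2 then (2 : ℝ) else 1) * (1 - ((({0} : Finset ℕ)).card : ℝ) / r)) := by
    apply Finset.prod_le_prod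
    · intro r hr
      rw [Pr, mem_filter, mem_Ioc] at hr
      have hr0 : (0 : ℝ) < r := by exact_mod_cast hr.2.pos
      have h2 : ((Zp p r).card : ℝ) ≤ r := by
        exact_mod_cast ((Zp_card_le_one hr.2).trans hr.2.one_lt.le)
      rw [sub_nonneg, div_le_one hr0]
      exact h2
    · intro r hr
      rw [Pr, mem_filter, mem_Ioc] at hr
      have hr0 : (0 : ℝ) < r := by exact_mod_cast hr.2.pos
      split_ifs with h2
      · subst h2
        rw [Zp_two]
        norm_num
      · rw [one_mul, card_singleton]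
        have h3 := (Zp_nonempty hp hr.2 h2 (by omega)).card_pos
        have h4 : (1 : ℝ) ≤ ((Zp p r).card : ℝ) := by exact_mod_cast h3
        have : ((1 : ℕ) : ℝ) / r ≤ ((Zp p r).card : ℝ) / r := by
          push_cast
          gcongr
        linarith
  refine h1.trans ?_
  rw [prod_mul_distrib]
  have h0 : 0 ≤ ∏ r ∈ Pr 0 K, (1 - ((({0} : Finset ℕ)).card : ℝ) / r) := by
    apply prod_nonneg
    intro r hr
    rw [Pr, mem_filter] at hr
    have hr1 : (1 : ℝ) ≤ r := by exact_mod_cast hr.2.one_lt.le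
    rw [card_singleton, sub_nonneg, div_le_one (by linarith)]
    push_cast
    exact hr1
  apply mul_le_mul_of_nonneg_right _ h0
  rw [Finset.prod_ite_eq' (Pr 0 K) 2 (fun _ => (2 : ℝ))]
  split_ifs <;> norm_num

/-- dense sets of multipliers contain narrow progressions -/
theorem ap (m : ℕ) (ε c δ : ℝ) (hε : 0 < ε) (hc : 0 < c) (hδ : 0 < δ) : ∃ B K₀ : ℕ, ∀ p K : ℕ, K₀ ≤ K → p.Prime →
    K < p → (p : ℝ) ^ δ ≤ K → c * K / Real.log p ≤ (MU p K).card →
    ∀ U ⊆ MU p K, ε * ((MU p K).card : ℝ) ≤ U.card →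
    ∃ a d : ℕ, 1 ≤ d ∧ (d : ℝ) ≤ Real.log p ^ B ∧ ∀ j < m, a + j * d ∈ U := by
  obtain ⟨C', hC', h'⟩ := VV_zero
  obtain ⟨B, X₀, hB⟩ := Pool.Agent.Y843.HS.fin m 1 1 (ε * c * δ / (2 * C')) one_pos (by positivity)
  refine ⟨B, max X₀ 3, fun p K hK hp hKp hpK hcard U hU hUc => ?_⟩
  have hK3 : 3 ≤ K := (le_max_right _ _).trans hK
  have hK0 : (0 : ℝ) < K := by exact_mod_cast (by omega : 0 < K)
  have hK1 : (1 : ℝ) < K := by exact_mod_cast (by omega : 1 < K)
  have hp0 : (0 : ℝ) < p := by exact_mod_cast hp.pos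
  have hlogK : 0 < Real.log K := Real.log_pos hK1
  have hlogKp : Real.log K ≤ Real.log p := Real.log_le_log hK0 (by exact_mod_cast hKp.le)
  have hlogp : 0 < Real.log p := by linarith
  have hδK : δ * Real.log p ≤ Real.log K := by
    rw [← Real.log_rpow hp0]
    exact Real.log_le_log (by positivity) hpK
  have e : ⌊(K : ℝ) ^ (1 : ℝ)⌋₊ = K := by rw [Real.rpow_one, Nat.floor_natCast]
  obtain ⟨a, d, hd1, hd2, hj⟩ := hB K 0 ((le_max_left _ _).trans hK) (Zp p) (fun r hr _ => adm_Zp p r hr) U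
    (by
      intro k hk
      have := hU hk
      rw [MU, mem_filter, mem_Icc] at this
      rw [mem_Ioc]
      omega)
    (by
      intro k hk r hr hrK hmem
      have h1 := hU hk
      rw [MU, mem_filter, mem_Icc] at h1
      rw [Zp, mem_filter, mem_range] at hmem
      rw [Real.rpow_one] at hrK
      have hrK' : r ≤ K := by exact_mod_cast hrK
      have h2 : r ∣ 2 * k * p + 1 := by
        have h3 : 2 * k * p + 1 ≡ 2 * (k % r) * p + 1 [MOD r] := by
          apply Nat.ModEq.add_right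
          apply Nat.ModEq.mul_right
          apply Nat.ModEq.mul_left
          exact (Nat.mod_modEq k r).symm
        exact (h3.dvd_iff dvd_rfl).2 hmem.2
      have h4 := (Nat.prime_dvd_prime_iff_eq hr h1.2).1 h2
      have h5 : p ≤ 2 * k * p := Nat.le_mul_of_pos_left _ (by omega)
      omega)
    (by
      rw [e]
      have h1 := VV_Zp hp hKp
      have h2 := h' K (by omega)
      calc ε * c * δ / (2 * C') * K * VV (Zp p) 0 K ≤ ε * c * δ / (2 * C') * K * (2 * (C' / Real.log K)) := by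
            gcongr
            linarith
        _ = ε * (c * K * (δ / Real.log K)) := by field_simp
        _ ≤ ε * (c * K * (1 / Real.log p)) := by
            have hx : δ / Real.log K ≤ 1 / Real.log p := by
              rw [div_le_div_iff₀ hlogK hlogp]
              linarith
            exact mul_le_mul_of_nonneg_left (mul_le_mul_of_nonneg_left hx (by positivity)) hε.le
        _ = ε * (c * K / Real.log p) := by ring
        _ ≤ ε * ((MU p K).card : ℝ) := by gcongr
        _ ≤ U.card := hUc)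
  exact ⟨a, d, hd1, hd2.trans (pow_le_pow_left₀ hlogK.le hlogKp B), hj⟩

end Pool.Agent.Zk38.Mult
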