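import Pool.Agent.Zk38.Mult.B

set_option autoImplicit false

/-!
# Multipliers `k` with `2 k p + 1` prime: the theorem
-/

namespace Pool.Agent.Zk38.Mult

open Finset Pool.Agent.TH76.LehP

theorem main : ∃ c δ : ℝ, 0 < c ∧ 0 < δ ∧ ∃ (G : Set ℕ) (K : ℕ → ℕ),
    (∀ p ∈ G, p.Prime ∧ p ≠ 2 ∧ (p : ℝ) ^ δ ≤ K p ∧ (K p : ℝ) ≤ (p : ℝ) ^ (1 - δ) ∧
      (∀ k : ℕ, 1 ≤ k → k ≤ K p → k < 2 * (p + 1) ∧ ¬ p ∣ k) ∧
      c * K p / Real.log p ≤ (MU p (K p)).card) ∧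
    (∃ x₀ : ℕ, ∀ x : ℕ, x₀ ≤ x → ∃ P : Finset ℕ, (∀ p ∈ P, p ∈ G ∧ (x : ℝ) ^ (1 / 2 + δ) < p ∧
      (p : ℝ) ≤ (x : ℝ) ^ (1 - δ)) ∧ c ≤ ∑ p ∈ P, 1 / (p : ℝ)) ∧
    (∀ (m : ℕ) (ε : ℝ), 0 < ε → ∃ B p₀ : ℕ, ∀ p ∈ G, p₀ ≤ p → ∀ U ⊆ MU p (K p),
      ε * ((MU p (K p)).card : ℝ) ≤ U.card →
      ∃ a d : ℕ, 1 ≤ d ∧ (d : ℝ) ≤ Real.log p ^ B ∧ ∀ j < m, a + j * d ∈ U) := by
  classical
  obtain ⟨c, κ, hc, hκ, hκ4, T0, hT0⟩ := many
  obtain ⟨T1, hT1⟩ := Filter.eventually_atTop.1 (ev_rpow 6 (κ / 2) (by positivity))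
  set T : ℕ := max T0 (max T1 100) with hT
  set Q : ℕ → ℕ → Prop := fun p t => T ≤ t ∧ (t : ℝ) ^ (1 / 2 + κ) < p ∧ (p : ℝ) ≤ (t : ℝ) ^ (1 - κ) ∧
    c * (t / (p * Real.log t)) ≤ ((P1 t p).card : ℝ) with hQ
  set G : Set ℕ := {p | p.Prime ∧ p ≠ 2 ∧ ∃ t, Q p t} with hG
  have hex : ∀ p : ℕ, ∃ t : ℕ, p ∈ G → Q p t := by
    intro p
    by_cases hp : p ∈ G
    · obtain ⟨-, -, t, ht⟩ := hp
      exact ⟨t, fun _ => ht⟩
    · exact ⟨0, fun h => absurd h hp⟩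
  choose τ hτ using hex
  set K : ℕ → ℕ := fun p => (τ p - 1) / (2 * p) with hK
  have hmain : ∀ p ∈ G, p.Prime ∧ p ≠ 2 ∧ (p : ℝ) ^ (κ / 2) ≤ K p ∧ (K p : ℝ) ≤ (p : ℝ) ^ (1 - κ / 2) ∧
      c * K p / Real.log p ≤ (MU p (K p)).card := by
    intro p hp
    obtain ⟨h1, h2, h3, h4⟩ := hτ p hp
    obtain ⟨hpp, hp2, -⟩ := hp
    set t : ℕ := τ p with ht
    have htT1 : T1 ≤ t := ((le_max_left _ _).trans (le_max_right _ _)).trans h1
    have ht100 : 100 ≤ t := ((le_max_right _ _).trans (le_max_right _ _)).trans h1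
    have htR : (100 : ℝ) ≤ t := by exact_mod_cast ht100
    have ht0 : (0 : ℝ) < t := by linarith
    have ht1 : (1 : ℝ) ≤ t := by linarith
    have hp0 : (0 : ℝ) < p := by exact_mod_cast hpp.pos
    have hp1 : (1 : ℝ) < p := by exact_mod_cast hpp.one_lt
    have hpt : (p : ℝ) ≤ t := h3.trans (by
      calc (t : ℝ) ^ (1 - κ) ≤ (t : ℝ) ^ (1 : ℝ) :=
            Real.rpow_le_rpow_of_exponent_le ht1 (by linarith)
        _ = t := Real.rpow_one _)
    have hlogt : 0 < Real.log t := Real.log_pos (by linarith)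
    have hlogp : 0 < Real.log p := Real.log_pos hp1
    -- t ≤ p ^ (2 - κ)
    have htp : (t : ℝ) ≤ (p : ℝ) ^ (2 - κ) := by
      have e1 : (1 : ℝ) ≤ (1 / 2 + κ) * (2 - κ) := by nlinarith
      calc (t : ℝ) = (t : ℝ) ^ (1 : ℝ) := (Real.rpow_one _).symm
        _ ≤ (t : ℝ) ^ ((1 / 2 + κ) * (2 - κ)) := Real.rpow_le_rpow_of_exponent_le ht1 e1
        _ = ((t : ℝ) ^ (1 / 2 + κ)) ^ (2 - κ) := Real.rpow_mul ht0.le _ _
        _ ≤ (p : ℝ) ^ (2 - κ) := Real.rpow_le_rpow (by positivity) h2.le (by linarith)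
    have hlog2 : Real.log t ≤ 2 * Real.log p := by
      have := Real.log_le_log ht0 htp
      rw [Real.log_rpow hp0] at this
      nlinarith
    -- upper bound for K
    have hKle : (K p : ℝ) ≤ t / (2 * p) := by
      have h5 : ((( t - 1) / (2 * p) : ℕ) : ℝ) ≤ ((t - 1 : ℕ) : ℝ) / ((2 * p : ℕ) : ℝ) := Nat.cast_div_le
      refine h5.trans ?_
      push_cast [Nat.cast_sub (by omega : 1 ≤ t)]
      gcongr
      linarith
    have hKup : (K p : ℝ) ≤ (p : ℝ) ^ (1 - κ / 2) := by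
      refine hKle.trans ?_
      rw [div_le_iff₀ (by positivity)]
      have e2 : (p : ℝ) ^ (2 - κ) = (p : ℝ) ^ (1 - κ) * p := by
        conv_rhs => rw [← Real.rpow_one (p : ℝ), ← Real.rpow_mul (by positivity), mul_comm, one_mul]
        rw [← Real.rpow_add hp0]
        ring_nf
      have e3 : (p : ℝ) ^ (1 - κ) ≤ (p : ℝ) ^ (1 - κ / 2) :=
        Real.rpow_le_rpow_of_exponent_le hp1.le (by linarith)
      have e4 : 0 < (p : ℝ) ^ (1 - κ / 2) := by positivity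
      calc (t : ℝ) ≤ (p : ℝ) ^ (1 - κ) * p := by rw [← e2]; exact htp
        _ ≤ (p : ℝ) ^ (1 - κ / 2) * p := by gcongr
        _ ≤ (p : ℝ) ^ (1 - κ / 2) * (2 * p) := by
            apply mul_le_mul_of_nonneg_left _ e4.le
            linarith
    -- lower bound for K
    have hKge : (t : ℝ) / (2 * p) - 2 ≤ K p := by
      have h6 : (((t - 1 : ℕ) : ℝ)) / ((2 * p : ℕ) : ℝ) < (((t - 1) / (2 * p) : ℕ) : ℝ) + 1 := by
        rw [div_lt_iff₀ (by push_cast; positivity)]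
        have := Nat.lt_div_mul_add (a := t - 1) (b := 2 * p) (by have := hpp.pos; omega)
        have h7 : t - 1 < ((t - 1) / (2 * p) + 1) * (2 * p) := by
          rw [add_mul, one_mul]; exact this
        exact_mod_cast h7
      push_cast [Nat.cast_sub (by omega : 1 ≤ t)] at h6
      have h8 : (1 : ℝ) / (2 * p) ≤ 1 := by
        rw [div_le_one (by positivity)]; linarith
      have h9 : ((t : ℝ) - 1) / (2 * p) = t / (2 * p) - 1 / (2 * p) := by ring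
      rw [h9] at h6
      simp only [hK]
      linarith
    have hKlow : (p : ℝ) ^ (κ / 2) ≤ K p := by
      have e5 : (t : ℝ) ^ κ ≤ t / p := by
        rw [le_div_iff₀ hp0]
        calc (t : ℝ) ^ κ * p ≤ (t : ℝ) ^ κ * (t : ℝ) ^ (1 - κ) :=
              mul_le_mul_of_nonneg_left h3 (by positivity)
          _ = t := by rw [← Real.rpow_add ht0]; simp
      have e6 : (t : ℝ) ^ κ = (t : ℝ) ^ (κ / 2) * (t : ℝ) ^ (κ / 2) := by
        rw [← Real.rpow_add ht0]; ring_nf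
      have e7 := hT1 t htT1
      have e8 : (p : ℝ) ^ (κ / 2) ≤ (t : ℝ) ^ (κ / 2) := Real.rpow_le_rpow hp0.le hpt (by positivity)
      have e9 : (t : ℝ) / (2 * p) = t / p / 2 := by field_simp
      nlinarith
    refine ⟨hpp, hp2, hKlow, hKup, ?_⟩
    have h10 : ((P1 t p).card : ℝ) ≤ ((MU p (K p)).card : ℝ) := by
      exact_mod_cast card_P1_le t p hpp hp2
    refine le_trans ?_ (h4.trans h10)
    calc c * K p / Real.log p ≤ c * (t / (2 * p)) / Real.log p := by gcongr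
      _ = c * (t / p) * (1 / (2 * Real.log p)) := by field_simp
      _ ≤ c * (t / p) * (1 / Real.log t) := by
          apply mul_le_mul_of_nonneg_left _ (by positivity)
          exact one_div_le_one_div_of_le hlogt hlog2
      _ = c * (t / (p * Real.log t)) := by field_simp
  refine ⟨c, κ / 2, hc, by positivity, G, K, ?_, ?_, ?_⟩
  · intro p hp
    obtain ⟨h1, h2, h3, h4, h5⟩ := hmain p hp
    have hp1 : (1 : ℝ) < p := by exact_mod_cast h1.one_lt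
    have hKp : (K p : ℝ) < p := h4.trans_lt (by
      calc (p : ℝ) ^ (1 - κ / 2) < (p : ℝ) ^ (1 : ℝ) := Real.rpow_lt_rpow_of_exponent_lt hp1 (by linarith)
        _ = p := Real.rpow_one _)
    have hKp' : K p < p := by exact_mod_cast hKp
    refine ⟨h1, h2, h3, h4, fun k hk hkK => ⟨by omega, fun hd => ?_⟩, h5⟩
    have := Nat.le_of_dvd hk hd
    omega
  · refine ⟨T, fun x hx => ?_⟩
    have hxT0 : T0 ≤ x := (le_max_left _ _).trans hx
    have hx100 : 100 ≤ x := ((le_max_right _ _).trans (le_max_right _ _)).trans hx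
    have hxR : (100 : ℝ) ≤ x := by exact_mod_cast hx100
    refine ⟨_, ?_, hT0 x hxT0⟩
    intro p hp
    rw [mem_filter, mem_Ioc] at hp
    obtain ⟨⟨h1, h2⟩, h3, h4⟩ := hp
    have h5 : (x : ℝ) ^ (1 / 2 + κ) < p := by
      have h6 : (x : ℝ) ^ (1 / 2 + κ) < (⌊(x : ℝ) ^ (1 / 2 + κ)⌋₊ : ℝ) + 1 := Nat.lt_floor_add_one _
      have h7 : ((⌊(x : ℝ) ^ (1 / 2 + κ)⌋₊ : ℕ) : ℝ) + 1 ≤ p := by exact_mod_cast h1
      linarith
    have h6 : (p : ℝ) ≤ (x : ℝ) ^ (1 - κ) := by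
      have h7 : (p : ℝ) ≤ ⌊(x : ℝ) ^ (1 - κ)⌋₊ := by exact_mod_cast h2
      exact h7.trans (Nat.floor_le (by positivity))
    have hp2 : p ≠ 2 := by
      rintro rfl
      have h7 : (10 : ℝ) ≤ (x : ℝ) ^ (1 / 2 + κ) := by
        calc (10 : ℝ) = (100 : ℝ) ^ (1 / 2 : ℝ) := by
              rw [show (100 : ℝ) = 10 ^ (2 : ℝ) by norm_num, ← Real.rpow_mul (by norm_num)]
              norm_num
          _ ≤ (x : ℝ) ^ (1 / 2 : ℝ) := Real.rpow_le_rpow (by norm_num) hxR (by norm_num)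
          _ ≤ (x : ℝ) ^ (1 / 2 + κ) := Real.rpow_le_rpow_of_exponent_le (by linarith) (by linarith)
      push_cast at h5
      linarith
    refine ⟨⟨h3, hp2, x, hx, h5, h6, h4⟩, ?_, ?_⟩
    · refine lt_of_le_of_lt ?_ h5
      exact Real.rpow_le_rpow_of_exponent_le (by linarith) (by linarith)
    · refine h6.trans ?_
      exact Real.rpow_le_rpow_of_exponent_le (by linarith) (by linarith)
  · intro m ε hε
    obtain ⟨B, K₀, hB⟩ := ap m ε c (κ / 2) hε hc (by positivity)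
    obtain ⟨p₀, hp₀⟩ := Filter.eventually_atTop.1 (ev_rpow K₀ (κ / 2) (by positivity))
    refine ⟨B, p₀, fun p hp hpp₀ U hU hUc => ?_⟩
    obtain ⟨h1, h2, h3, h4, h5⟩ := hmain p hp
    have hp1 : (1 : ℝ) < p := by exact_mod_cast h1.one_lt
    have hKp : (K p : ℝ) < p := h4.trans_lt (by
      calc (p : ℝ) ^ (1 - κ / 2) < (p : ℝ) ^ (1 : ℝ) := Real.rpow_lt_rpow_of_exponent_lt hp1 (by linarith)
        _ = p := Real.rpow_one _)
    have hKp' : K p < p := by exact_mod_cast hKp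
    have hKK : K₀ ≤ K p := by
      have : (K₀ : ℝ) ≤ K p := (hp₀ p hpp₀).trans h3
      exact_mod_cast this
    exact hB p (K p) hKK h1 hKp' h3 h5 U hU hUc

end Pool.Agent.Zk38.Mult
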